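import Pool.Agent.Lib_helper55.F4Defs
import Pool.Agent.Lib_helper55.F4Lower2

set_option autoImplicit false

namespace Pool.Agent.Results.MP_0fdbcb_co.ExactValue

open Pool.Agent.Lib_helper55.F4

/-- The exact value of `f_4(r,s)` for all `s ≥ r ≥ 5`; in particular for all `r ≥ 5` and
`s > r ^ 2 - 5 * r + 8`. Here `f_4(r,s)` is the least positive `p` such that every connected
graph of order `p` contains `r` mutually joint elements or `s` mutually disjoint elements. -/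
theorem result (r s : ℕ) (hr : 5 ≤ r) (hs : r ≤ s) :
    IsLeast {p : ℕ | 0 < p ∧ Forces r s p}
      (2 * s - 1 - ⌈((s : ℚ) - r + 2) / (((r : ℚ) - 3) ^ 2 + 1)⌉₊) := by
  obtain ⟨m, rfl⟩ : ∃ m, r = m + 3 := ⟨r - 3, by omega⟩
  have hm : 2 ≤ m := by omega
  set k := ⌈((s : ℚ) - (m + 3 : ℕ) + 2) / ((((m + 3 : ℕ) : ℚ) - 3) ^ 2 + 1)⌉₊ with hk
  have hx : ((s : ℚ) - (m + 3 : ℕ) + 2) / ((((m + 3 : ℕ) : ℚ) - 3) ^ 2 + 1) =
      ((s : ℚ) - m - 1) / ((m : ℚ) ^ 2 + 1) := by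
    push_cast
    congr 1
    · ring
    · ring
  rw [hx] at hk
  have hq : (0 : ℚ) < (m : ℚ) ^ 2 + 1 := by positivity
  have hs' : ((m + 3 : ℕ) : ℚ) ≤ s := by exact_mod_cast hs
  have hpos : 0 < ((s : ℚ) - m - 1) / ((m : ℚ) ^ 2 + 1) := by
    apply div_pos _ hq
    push_cast at hs'
    linarith
  have hk1 : 1 ≤ k := by
    rw [hk]
    exact Nat.ceil_pos.2 hpos
  have hle : ((s : ℚ) - m - 1) / ((m : ℚ) ^ 2 + 1) ≤ k := by
    rw [hk]; exact Nat.le_ceil _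
  have hlt : (k : ℚ) < ((s : ℚ) - m - 1) / ((m : ℚ) ^ 2 + 1) + 1 := by
    rw [hk]; exact Nat.ceil_lt_add_one hpos.le
  have h2 : s ≤ m + 1 + k * (m ^ 2 + 1) := by
    rw [div_le_iff₀ hq] at hle
    have : (s : ℚ) ≤ ((m + 1 + k * (m ^ 2 + 1) : ℕ) : ℚ) := by push_cast; linarith
    exact_mod_cast this
  have h1 : (k - 1) * (m ^ 2 + 1) + m + 2 ≤ s := by
    obtain ⟨j, hj⟩ : ∃ j, k = j + 1 := ⟨k - 1, by omega⟩
    rw [hj] at hlt ⊢
    rw [Nat.add_sub_cancel]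
    push_cast at hlt
    have h3 : (j : ℚ) < ((s : ℚ) - m - 1) / ((m : ℚ) ^ 2 + 1) := by linarith
    rw [lt_div_iff₀ hq] at h3
    have h4 : ((j * (m ^ 2 + 1) + m + 1 : ℕ) : ℚ) < s := by push_cast; linarith
    have h5 : j * (m ^ 2 + 1) + m + 1 < s := by exact_mod_cast h4
    omega
  have hks : k + 2 ≤ 2 * s - 1 := by
    have : (k - 1) * 5 ≤ (k - 1) * (m ^ 2 + 1) := Nat.mul_le_mul_left _ (by nlinarith)
    omega
  refine ⟨⟨by omega, forces_upper hm hk1 hs h1⟩, ?_⟩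
  rintro p ⟨hp, hf⟩
  by_contra hcon
  push Not at hcon
  exact not_forces_le (not_forces_lower hm hk1 hs h1 h2) p hp (by omega) hf

end Pool.Agent.Results.MP_0fdbcb_co.ExactValue
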